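import Pool.Agent.Helper712_LP.Defs

/-!
# Stable multi-matchings of marked Poisson processes: definitions
-/

set_option autoImplicit false

namespace Run7.h550.SMM

open MeasureTheory ProbabilityTheory Set
open scoped ENNReal NNReal
open Pool.Agent.Helper712_LP (E IsPoissonProcess)

/-- The random points `x 0, x 1, …` enumerate a Poisson point process of intensity 1 in `ℝ^d`, and
the point with index `i` has `D i` stubs, where the `D i` are independent with law `μ` and
independent of the points. -/
structure MarkedPoisson {d : ℕ} {Ω : Type} [MeasurableSpace Ω] (P : Measure Ω) (μ : Measure ℕ)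
    (x : ℕ → Ω → E d) (D : ℕ → Ω → ℕ) : Prop where
  points : IsPoissonProcess P 1 x
  measurable : ∀ i, Measurable (D i)
  law : ∀ i, P.map (D i) = μ
  indep : iIndepFun D P
  indep_points : IndepFun (fun ω i => x i ω) (fun ω i => D i ω) P

/-- In the graph `G` the point with index `i` is willing to link to the point with index `j`: it
has fewer than `D i` edges, or it has an edge which is longer than the distance of the points. -/
def Willing {d : ℕ} (y : ℕ → E d) (D : ℕ → ℕ) (G : SimpleGraph ℕ) (i j : ℕ) : Prop :=
  (G.neighborSet i).encard < (D i : ℕ∞) ∨ ∃ k, G.Adj i k ∧ dist (y i) (y j) < dist (y i) (y k)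

/-- `G` is a stable multi-matching of the points `y 0, y 1, …` with `D 0, D 1, …` stubs. -/
structure IsStable {d : ℕ} (y : ℕ → E d) (D : ℕ → ℕ) (G : SimpleGraph ℕ) : Prop where
  degree_le : ∀ i, (G.neighborSet i).encard ≤ (D i : ℕ∞)
  stable : ∀ i j, i ≠ j → ¬ G.Adj i j → ¬ (Willing y D G i j ∧ Willing y D G j i)

/-- `G` has an infinite connected component. -/
def Percolates (G : SimpleGraph ℕ) : Prop := ∃ C : G.ConnectedComponent, C.supp.Infinite

/-- The law of the factorial `(j + 2)!`, where `j` has the geometric law `2 ^ (-j-1)`. -/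
noncomputable def nu : Measure ℕ :=
  Measure.sum fun j : ℕ => ((2 : ℝ≥0∞)⁻¹ ^ (j + 1)) • Measure.dirac (j + 2).factorial

end Run7.h550.SMM
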