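import Pool.Agent.Run7.h550.SMM.Defs

/-!
# Stable multi-matchings: the deterministic part
-/

set_option autoImplicit false

namespace Run7.h550.SMM

open Set Filter
open scoped ENNReal NNReal
open Pool.Agent.Helper712_LP (E IsPoissonProcess count)

variable {d : ℕ} {y : ℕ → E d} {D : ℕ → ℕ} {G : SimpleGraph ℕ}

/-- A point with more stubs than points at distance at most `dist (y i) (y j)` is willing to link
to `j`, unless it does. -/
lemma willing_of (_hG : IsStable y D G) {i j : ℕ} (hij : i ≠ j) (hna : ¬ G.Adj i j)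
    {S : Set ℕ} (hS : {k | dist (y i) (y k) ≤ dist (y i) (y j)} ⊆ S)
    (hc : S.encard ≤ (D i : ℕ∞)) : Willing y D G i j := by
  by_contra hw
  unfold Willing at hw
  push Not at hw
  obtain ⟨h1, h2⟩ := hw
  have hsub : insert i (G.neighborSet i) ⊆ S := by
    intro k hk
    rcases hk with rfl | hk
    · exact hS (by simp)
    · exact hS (h2 k hk)
  have hi : i ∉ G.neighborSet i := by simp
  have h3 : (G.neighborSet i).encard + 1 ≤ S.encard := by
    rw [← encard_insert_of_notMem hi]
    exact encard_le_encard hsub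
  have h4 : (D i : ℕ∞) + 1 ≤ (D i : ℕ∞) := (add_le_add_left h1 1).trans (h3.trans hc)
  have h5 : (D i : ℕ∞) < (D i : ℕ∞) + 1 := by
    have : ((D i : ℕ) : ℕ∞) < ((D i + 1 : ℕ) : ℕ∞) := by exact_mod_cast Nat.lt_succ_self _
    simpa using this
  exact absurd h4 (not_le.2 h5)

lemma adj_of (hG : IsStable y D G) {i j : ℕ} (hij : i ≠ j) {S T : Set ℕ}
    (hS : {k | dist (y i) (y k) ≤ dist (y i) (y j)} ⊆ S) (hc : S.encard ≤ (D i : ℕ∞))
    (hT : {k | dist (y j) (y k) ≤ dist (y j) (y i)} ⊆ T) (hd : T.encard ≤ (D j : ℕ∞)) :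
    G.Adj i j := by
  by_contra hna
  exact hG.stable i j hij hna ⟨willing_of hG hij hna hS hc,
    willing_of hG hij.symm (fun h => hna h.symm) hT hd⟩

/-- The configuration is good from scale `K` on: for every `k ≥ K` the ball of radius `4 ^ (k+3)`
contains at most `k!` points, and the annulus with radii `4 ^ k` and `4 ^ (k + 1)` contains a point
with at least `k!` stubs. -/
def Good (y : ℕ → E d) (D : ℕ → ℕ) (K : ℕ) : Prop :=
  ∀ k, K ≤ k → {i | ‖y i‖ ≤ 4 ^ (k + 3)}.encard ≤ (k.factorial : ℕ∞) ∧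
    ∃ i, 4 ^ k ≤ ‖y i‖ ∧ ‖y i‖ < 4 ^ (k + 1) ∧ k.factorial ≤ D i

lemma percolates_of_good (hG : IsStable y D G) {K : ℕ} (h : Good y D K) : Percolates G := by
  choose! f hf using fun k (hk : K ≤ k) => (h k hk).2
  have hadj : ∀ k, K ≤ k → G.Adj (f k) (f (k + 1)) := by
    intro k hk
    obtain ⟨a1, a2, a3⟩ := hf k hk
    obtain ⟨b1, b2, b3⟩ := hf (k + 1) (by omega)
    have hne : f k ≠ f (k + 1) := by
      intro he
      rw [he] at a2
      exact absurd a2 (not_lt.2 b1)
    have hpos : (0 : ℝ) < 4 ^ k := by positivity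
    have e1 : (4 : ℝ) ^ (k + 1) = 4 * 4 ^ k := by ring
    have e2 : (4 : ℝ) ^ (k + 1 + 1) = 16 * 4 ^ k := by ring
    have e3 : (4 : ℝ) ^ (k + 3) = 64 * 4 ^ k := by ring
    rw [e1] at a2
    rw [e2] at b2
    have hd : dist (y (f k)) (y (f (k + 1))) ≤ 20 * 4 ^ k := by
      rw [dist_eq_norm]
      calc _ ≤ ‖y (f k)‖ + ‖y (f (k + 1))‖ := norm_sub_le _ _
        _ ≤ 20 * 4 ^ k := by linarith
    have key : ∀ i j, ‖y i‖ ≤ 16 * 4 ^ k → dist (y i) (y j) ≤ 20 * 4 ^ k →
        {l | dist (y i) (y l) ≤ dist (y i) (y j)} ⊆ {l | ‖y l‖ ≤ 4 ^ (k + 3)} := by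
      intro i j hi hd l hl
      simp only [Set.mem_ofPred_eq] at hl ⊢
      rw [e3]
      have h1 : ‖y l‖ ≤ ‖y i‖ + dist (y i) (y l) := by
        rw [dist_comm, dist_eq_norm]
        have := norm_add_le (y i) (y l - y i)
        simpa using this
      linarith
    refine adj_of hG hne (key _ _ (by linarith) hd) ((h k hk).1.trans (by exact_mod_cast a3))
      (key _ _ (by linarith) (by rwa [dist_comm])) ((h k hk).1.trans ?_)
    have : k.factorial ≤ D (f (k + 1)) := (Nat.factorial_le (Nat.le_succ k)).trans b3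
    exact_mod_cast this
  have hreach : ∀ k, K ≤ k → G.Reachable (f K) (f k) := by
    intro k hk
    induction k, hk using Nat.le_induction with
    | base => exact SimpleGraph.Reachable.refl _
    | succ k hk ih => exact ih.trans (hadj k hk).reachable
  refine ⟨G.connectedComponentMk (f K), ?_⟩
  have hinj : Set.InjOn f (Set.Ici K) := by
    have hlt : ∀ a b, K ≤ a → a < b → ‖y (f a)‖ < ‖y (f b)‖ := by
      intro a b ha hab
      have h1 := (hf a ha).2.1
      have h2 := (hf b (by omega)).1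
      have h3 : (4 : ℝ) ^ (a + 1) ≤ 4 ^ b := pow_le_pow_right₀ (by norm_num) hab
      linarith
    intro a ha b hb he
    rcases lt_trichotomy a b with hab | hab | hab
    · exact absurd (hlt a b ha hab) (by rw [he]; exact lt_irrefl _)
    · exact hab
    · exact absurd (hlt b a hb hab) (by rw [he]; exact lt_irrefl _)
  refine Set.Infinite.mono ?_ ((Set.Ici_infinite K).image hinj)
  rintro _ ⟨k, hk, rfl⟩
  simp only [SimpleGraph.ConnectedComponent.mem_supp_iff, SimpleGraph.ConnectedComponent.eq]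
  exact (hreach k hk).symm

/-- In a good configuration all stubs are used. -/
lemma degree_eq_of_good (hG : IsStable y D G) {K : ℕ} (h : Good y D K) (i : ℕ) :
    (G.neighborSet i).encard = (D i : ℕ∞) := by
  refine le_antisymm (hG.degree_le i) ?_
  by_contra hlt
  rw [not_le] at hlt
  choose! f hf using fun k (hk : K ≤ k) => (h k hk).2
  obtain ⟨L, hL⟩ : ∃ L : ℕ, ‖y i‖ ≤ 4 ^ L := by
    obtain ⟨L, hL⟩ := pow_unbounded_of_one_lt ‖y i‖ (by norm_num : (1 : ℝ) < 4)
    exact ⟨L, hL.le⟩
  have hadj : ∀ k, K ≤ k → L < k → G.Adj i (f k) := by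
    intro k hk hLk
    obtain ⟨a1, a2, a3⟩ := hf k hk
    have hLk' : (4 : ℝ) ^ L < 4 ^ k := pow_lt_pow_right₀ (by norm_num) hLk
    have hne : f k ≠ i := by
      rintro he
      rw [he] at a1
      linarith
    by_contra hna
    refine hG.stable i (f k) hne.symm hna ⟨Or.inl hlt, ?_⟩
    refine willing_of hG hne (fun h => hna h.symm) (S := {l | ‖y l‖ ≤ 4 ^ (k + 3)}) ?_
      ((h k hk).1.trans (by exact_mod_cast a3))
    intro l hl
    simp only [Set.mem_ofPred_eq] at hl ⊢
    have e1 : (4 : ℝ) ^ (k + 1) = 4 * 4 ^ k := by ring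
    have e3 : (4 : ℝ) ^ (k + 3) = 64 * 4 ^ k := by ring
    rw [e3]
    rw [e1] at a2
    have hpos : (0 : ℝ) < 4 ^ k := by positivity
    have h1 : ‖y l‖ ≤ ‖y (f k)‖ + dist (y (f k)) (y l) := by
      rw [dist_comm, dist_eq_norm]
      have := norm_add_le (y (f k)) (y l - y (f k))
      simpa using this
    have h2 : dist (y (f k)) (y i) ≤ ‖y (f k)‖ + ‖y i‖ := by
      rw [dist_eq_norm]
      exact norm_sub_le _ _
    linarith
  have hinf : (G.neighborSet i).Infinite := by
    have hinj : Set.InjOn f (Set.Ici (max K (L + 1))) := by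
      have hlt : ∀ a b, K ≤ a → a < b → ‖y (f a)‖ < ‖y (f b)‖ := by
        intro a b ha hab
        have h1 := (hf a ha).2.1
        have h2 := (hf b (by omega)).1
        have h3 : (4 : ℝ) ^ (a + 1) ≤ 4 ^ b := pow_le_pow_right₀ (by norm_num) hab
        linarith
      intro a ha b hb he
      have ha' : K ≤ a := (le_max_left _ _).trans ha
      have hb' : K ≤ b := (le_max_left _ _).trans hb
      rcases lt_trichotomy a b with hab | hab | hab
      · exact absurd (hlt a b ha' hab) (by rw [he]; exact lt_irrefl _)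
      · exact hab
      · exact absurd (hlt b a hb' hab) (by rw [he]; exact lt_irrefl _)
    refine Set.Infinite.mono ?_ ((Set.Ici_infinite _).image hinj)
    rintro _ ⟨k, hk, rfl⟩
    have hk1 : K ≤ k := (le_max_left _ _).trans hk
    have hk2 : L + 1 ≤ k := (le_max_right _ _).trans hk
    exact hadj k hk1 hk2
  have : (G.neighborSet i).encard = ⊤ := hinf.encard_eq
  rw [this] at hlt
  exact absurd hlt (by simp)

end Run7.h550.SMM
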