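import Pool.Agent.Run7.h550.SMM.Det

/-!
# Existence of stable multi-matchings of locally finite configurations
-/

set_option autoImplicit false

namespace Run7.h550.SMM

open Set Filter
open scoped ENNReal NNReal
open Pool.Agent.Helper712_LP (E IsPoissonProcess count)

variable {d : ℕ} {y : ℕ → E d} {D : ℕ → ℕ}

/-- `i` has `D i` edges, all of length at most `r` -/
def Sat (y : ℕ → E d) (D : ℕ → ℕ) (G : SimpleGraph ℕ) (i : ℕ) (r : ℝ) : Prop :=
  (D i : ℕ∞) ≤ (G.neighborSet i).encard ∧ ∀ k, G.Adj i k → dist (y i) (y k) ≤ r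

lemma not_willing_of_sat {G : SimpleGraph ℕ} {i j : ℕ} (h : Sat y D G i (dist (y i) (y j))) :
    ¬ Willing y D G i j := by
  rintro (h1 | ⟨k, h1, h2⟩)
  · exact absurd h1 (not_lt.2 h.1)
  · exact absurd h2 (not_lt.2 (h.2 k h1))

/-- the greedy algorithm -/
lemma exists_finite (y : ℕ → E d) (D : ℕ → ℕ) : ∀ (n : ℕ) (T : Finset (ℕ × ℕ)), T.card = n →
    (∀ e ∈ T, e.1 ≠ e.2) → ∃ G : SimpleGraph ℕ,
      (∀ a b, G.Adj a b → (a, b) ∈ T ∨ (b, a) ∈ T) ∧
      (∀ a, (G.neighborSet a).encard ≤ (D a : ℕ∞)) ∧
      ∀ e ∈ T, ¬ G.Adj e.1 e.2 →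
        Sat y D G e.1 (dist (y e.1) (y e.2)) ∨ Sat y D G e.2 (dist (y e.1) (y e.2)) := by
  classical
  intro n
  induction n with
  | zero =>
    intro T hT _
    rw [Finset.card_eq_zero] at hT
    subst hT
    refine ⟨⊥, by simp, fun a => ?_, by simp⟩
    simp
  | succ n ih =>
    intro T hT hne
    have hTn : T.Nonempty := by
      rw [← Finset.card_pos]
      omega
    obtain ⟨e, he, hmax⟩ := Finset.exists_max_image T (fun e => dist (y e.1) (y e.2)) hTn
    obtain ⟨G, h1, h2, h3⟩ := ih (T.erase e) (by rw [Finset.card_erase_of_mem he]; omega)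
      (fun f hf => hne f (Finset.mem_of_mem_erase hf))
    have hlen : ∀ a b, G.Adj a b → dist (y a) (y b) ≤ dist (y e.1) (y e.2) := by
      intro a b hab
      rcases h1 a b hab with h | h
      · exact hmax (a, b) (Finset.mem_of_mem_erase h)
      · rw [dist_comm]
        exact hmax (b, a) (Finset.mem_of_mem_erase h)
    by_cases hc : (G.neighborSet e.1).encard < (D e.1 : ℕ∞) ∧
        (G.neighborSet e.2).encard < (D e.2 : ℕ∞)
    · -- add the edge
      set G' : SimpleGraph ℕ := G ⊔ SimpleGraph.edge e.1 e.2 with hG'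
      have hadj : ∀ a b, G'.Adj a b ↔ G.Adj a b ∨ (a = e.1 ∧ b = e.2) ∨ (a = e.2 ∧ b = e.1) := by
        intro a b
        rw [hG', SimpleGraph.sup_adj, SimpleGraph.edge_adj]
        have := hne e he
        constructor
        · rintro (h | ⟨h, -⟩)
          · exact Or.inl h
          · right
            rcases h with h | h
            · exact Or.inl ⟨h.1, h.2⟩
            · exact Or.inr ⟨h.1, h.2⟩
        · rintro (h | ⟨rfl, rfl⟩ | ⟨rfl, rfl⟩)
          · exact Or.inl h
          · right
            exact ⟨by simp, this⟩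
          · right
            exact ⟨by simp, this.symm⟩
      have hnb : ∀ a, a ≠ e.1 → a ≠ e.2 → G'.neighborSet a = G.neighborSet a := by
        intro a ha1 ha2
        ext b
        simp only [SimpleGraph.mem_neighborSet, hadj]
        simp [ha1, ha2]
      have hnb1 : G'.neighborSet e.1 ⊆ insert e.2 (G.neighborSet e.1) := by
        intro b hb
        simp only [SimpleGraph.mem_neighborSet, hadj] at hb
        rcases hb with hb | hb | hb
        · exact Or.inr hb
        · exact Or.inl hb.2
        · exact absurd hb.1 (hne e he)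
      have hnb2 : G'.neighborSet e.2 ⊆ insert e.1 (G.neighborSet e.2) := by
        intro b hb
        simp only [SimpleGraph.mem_neighborSet, hadj] at hb
        rcases hb with hb | hb | hb
        · exact Or.inr hb
        · exact absurd hb.1.symm (hne e he)
        · exact Or.inl hb.2
      have hsat : ∀ a r, Sat y D G a r → Sat y D G' a r := by
        intro a r ha
        have ha1 : a ≠ e.1 := by
          rintro rfl
          exact absurd hc.1 (not_lt.2 ha.1)
        have ha2 : a ≠ e.2 := by
          rintro rfl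
          exact absurd hc.2 (not_lt.2 ha.1)
        refine ⟨by rw [hnb a ha1 ha2]; exact ha.1, fun k hk => ha.2 k ?_⟩
        have : k ∈ G'.neighborSet a := hk
        rwa [hnb a ha1 ha2] at this
      refine ⟨G', ?_, ?_, ?_⟩
      · intro a b hab
        rcases (hadj a b).1 hab with h | ⟨rfl, rfl⟩ | ⟨rfl, rfl⟩
        · rcases h1 a b h with h | h
          · exact Or.inl (Finset.mem_of_mem_erase h)
          · exact Or.inr (Finset.mem_of_mem_erase h)
        · exact Or.inl he
        · exact Or.inr he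
      · intro a
        by_cases ha1 : a = e.1
        · subst ha1
          calc _ ≤ (insert e.2 (G.neighborSet e.1)).encard := encard_le_encard hnb1
            _ ≤ (G.neighborSet e.1).encard + 1 := encard_insert_le _ _
            _ ≤ _ := Order.add_one_le_of_lt hc.1
        · by_cases ha2 : a = e.2
          · subst ha2
            calc _ ≤ (insert e.1 (G.neighborSet e.2)).encard := encard_le_encard hnb2
              _ ≤ (G.neighborSet e.2).encard + 1 := encard_insert_le _ _
              _ ≤ _ := Order.add_one_le_of_lt hc.2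
          · rw [hnb a ha1 ha2]
            exact h2 a
      · intro f hf hna
        by_cases hfe : f = e
        · subst hfe
          exact absurd ((hadj _ _).2 (Or.inr (Or.inl ⟨rfl, rfl⟩))) hna
        · rcases h3 f (Finset.mem_erase.2 ⟨hfe, hf⟩)
            (fun h => hna ((hadj _ _).2 (Or.inl h))) with h | h
          · exact Or.inl (hsat _ _ h)
          · exact Or.inr (hsat _ _ h)
    · refine ⟨G, ?_, h2, ?_⟩
      · intro a b hab
        rcases h1 a b hab with h | h
        · exact Or.inl (Finset.mem_of_mem_erase h)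
        · exact Or.inr (Finset.mem_of_mem_erase h)
      · intro f hf hna
        by_cases hfe : f = e
        · subst hfe
          rw [not_and_or, not_lt, not_lt] at hc
          rcases hc with h | h
          · exact Or.inl ⟨h, fun k hk => hlen _ _ hk⟩
          · exact Or.inr ⟨h, fun k hk => hlen _ _ hk⟩
        · exact h3 f (Finset.mem_erase.2 ⟨hfe, hf⟩) hna

/-- Locally finite configurations have stable multi-matchings. -/
theorem exists_stable (hy : ∀ r : ℝ, {i | ‖y i‖ ≤ r}.Finite) : ∃ G, IsStable y D G := by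
  classical
  set S : ℕ → Finset ℕ := fun n => (hy n).toFinset with hS
  have hex : ∀ n, ∃ G : SimpleGraph ℕ,
      (∀ a, (G.neighborSet a).encard ≤ (D a : ℕ∞)) ∧
      ∀ i ∈ S n, ∀ j ∈ S n, i ≠ j → ¬ G.Adj i j →
        Sat y D G i (dist (y i) (y j)) ∨ Sat y D G j (dist (y i) (y j)) := by
    intro n
    obtain ⟨G, h1, h2, h3⟩ := exists_finite y D _ (S n).offDiag rfl
      (fun e he => (Finset.mem_offDiag.1 he).2.2)
    exact ⟨G, h2, fun i hi j hj hij hna => h3 (i, j) (Finset.mem_offDiag.2 ⟨hi, hj, hij⟩) hna⟩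
  choose Gn hdeg hst using hex
  set U : Ultrafilter ℕ := hyperfilter ℕ with hU
  have hUle : (U : Filter ℕ) ≤ atTop := by
    rw [hU, ← Nat.cofinite_eq_atTop]
    exact hyperfilter_le_cofinite
  set G : SimpleGraph ℕ := SimpleGraph.mk (fun i j => ∀ᶠ n in (U : Filter ℕ), (Gn n).Adj i j)
    ⟨fun i j h => h.mono fun n hn => hn.symm⟩
    ⟨fun i h => by
      obtain ⟨n, hn⟩ := h.exists
      exact hn.ne rfl⟩ with hG
  have hGadj : ∀ i j, G.Adj i j ↔ ∀ᶠ n in (U : Filter ℕ), (Gn n).Adj i j := fun i j => Iff.rfl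
  have hGnadj : ∀ i j, ¬ G.Adj i j → ∀ᶠ n in (U : Filter ℕ), ¬ (Gn n).Adj i j := by
    intro i j h
    rw [hGadj, ← Ultrafilter.eventually_not] at h
    exact h
  have hmem : ∀ i, ∀ᶠ n in (U : Filter ℕ), i ∈ S n := by
    intro i
    refine hUle ?_
    obtain ⟨m, hm⟩ := exists_nat_ge ‖y i‖
    filter_upwards [eventually_ge_atTop m] with n hn
    simp only [hS, Set.Finite.mem_toFinset, Set.mem_ofPred_eq]
    exact hm.trans (by exact_mod_cast hn)
  have hfin : ∀ (i : ℕ) (r : ℝ), {k | dist (y i) (y k) ≤ r}.Finite := by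
    intro i r
    refine (hy (‖y i‖ + r)).subset fun k hk => ?_
    simp only [Set.mem_ofPred_eq] at hk ⊢
    have h1 : ‖y k‖ ≤ ‖y i‖ + dist (y i) (y k) := by
      rw [dist_comm, dist_eq_norm]
      have := norm_add_le (y i) (y k - y i)
      simpa using this
    linarith
  have key : ∀ i j, (∀ᶠ n in (U : Filter ℕ), Sat y D (Gn n) i (dist (y i) (y j))) →
      Sat y D G i (dist (y i) (y j)) := by
    intro i j h
    have h1 : ∀ k, G.Adj i k → dist (y i) (y k) ≤ dist (y i) (y j) := by
      intro k hk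
      obtain ⟨n, hn1, hn2⟩ := (h.and ((hGadj i k).1 hk)).exists
      exact hn1.2 k hn2
    refine ⟨?_, h1⟩
    have h2 : ∀ᶠ n in (U : Filter ℕ), ∀ k ∈ {k | dist (y i) (y k) ≤ dist (y i) (y j)},
        (Gn n).Adj i k → G.Adj i k := by
      rw [Filter.eventually_all_finite (hfin i _)]
      intro k _
      by_cases hk : G.Adj i k
      · exact Eventually.of_forall fun n _ => hk
      · filter_upwards [hGnadj i k hk] with n hn h
        exact absurd h hn
    obtain ⟨n, hn1, hn2⟩ := (h.and h2).exists
    refine hn1.1.trans (encard_le_encard fun k hk => ?_)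
    exact hn2 k (hn1.2 k hk) hk
  refine ⟨G, ?_, ?_⟩
  · intro i
    by_contra hlt
    rw [not_le] at hlt
    have h1 : ((D i + 1 : ℕ) : ℕ∞) ≤ (G.neighborSet i).encard := by
      have := Order.add_one_le_of_lt hlt
      exact_mod_cast this
    obtain ⟨F, hF1, hF2⟩ := Set.exists_subset_encard_eq h1
    have hFf : F.Finite := Set.finite_of_encard_eq_coe hF2
    have h2 : ∀ᶠ n in (U : Filter ℕ), ∀ k ∈ F, (Gn n).Adj i k := by
      rw [Filter.eventually_all_finite hFf]
      intro k hk
      exact hF1 hk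
    obtain ⟨n, hn⟩ := h2.exists
    have h3 : F.encard ≤ (D i : ℕ∞) := (encard_le_encard fun k hk => hn k hk).trans (hdeg n i)
    rw [hF2] at h3
    have h4 : D i + 1 ≤ D i := by exact_mod_cast h3
    omega
  · rintro i j hij hna ⟨hw1, hw2⟩
    have h1 : ∀ᶠ n in (U : Filter ℕ), Sat y D (Gn n) i (dist (y i) (y j)) ∨
        Sat y D (Gn n) j (dist (y j) (y i)) := by
      filter_upwards [hGnadj i j hna, hmem i, hmem j] with n h1 h2 h3
      rw [dist_comm (y j) (y i)]
      exact hst n i h2 j h3 hij h1
    rw [Ultrafilter.eventually_or] at h1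
    rcases h1 with h1 | h1
    · exact not_willing_of_sat (key i j h1) hw1
    · exact not_willing_of_sat (key j i h1) hw2

lemma locallyFinite_of_good {K : ℕ} (h : Good y D K) (r : ℝ) : {i | ‖y i‖ ≤ r}.Finite := by
  obtain ⟨L, hL⟩ : ∃ L : ℕ, r ≤ 4 ^ L := by
    obtain ⟨L, hL⟩ := pow_unbounded_of_one_lt r (by norm_num : (1 : ℝ) < 4)
    exact ⟨L, hL.le⟩
  have h1 := (h (max K L) (le_max_left _ _)).1
  have h2 : {i | ‖y i‖ ≤ 4 ^ (max K L + 3)}.Finite := by
    rw [← Set.encard_lt_top_iff]
    exact lt_of_le_of_lt h1 (by simp)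
  refine h2.subset fun i hi => ?_
  simp only [Set.mem_ofPred_eq] at hi ⊢
  refine hi.trans (hL.trans (pow_le_pow_right₀ (by norm_num) ?_))
  have := le_max_right K L
  omega

end Run7.h550.SMM
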