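import Pool.Agent.Run7.h550.SMM.Prob
import Pool.Agent.Run7.h550.SMM.Exist
import Pool.Agent.Helper56_LP.Exists

/-!
# Stable multi-matchings with heavy-tailed degrees percolate
-/

set_option autoImplicit false

namespace Run7.h550.SMM

open MeasureTheory ProbabilityTheory Set Filter Topology
open scoped ENNReal NNReal
open Pool.Agent.Helper712_LP (E IsPoissonProcess count)

/-! ### The law of the degrees -/

lemma nu_apply (s : Set ℕ) :
    nu s = ∑' j : ℕ, (2 : ℝ≥0∞)⁻¹ ^ (j + 1) * s.indicator (fun _ => 1) (j + 2).factorial := by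
  rw [nu, Measure.sum_apply _ MeasurableSet.of_discrete]
  refine tsum_congr fun j => ?_
  rw [Measure.smul_apply, Measure.dirac_apply' _ MeasurableSet.of_discrete]
  rfl

instance : IsProbabilityMeasure nu := by
  constructor
  rw [nu_apply]
  simp only [indicator_univ, mul_one]
  exact ENNReal.tsum_geometric_add_one _ |>.trans (by
    rw [ENNReal.one_sub_inv_two, inv_inv, ENNReal.inv_mul_cancel two_ne_zero ENNReal.ofNat_ne_top])

lemma nu_small : nu {n | n < 2} = 0 := by
  rw [nu_apply]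
  simp only [ENNReal.tsum_eq_zero, mul_eq_zero]
  intro j
  right
  rw [indicator_of_notMem]
  simp only [Set.mem_ofPred_eq, not_lt]
  calc 2 = (2 : ℕ).factorial := rfl
    _ ≤ (j + 2).factorial := Nat.factorial_le (by omega)

lemma nu_large (k : ℕ) : (2 : ℝ≥0∞)⁻¹ ^ (k + 1) ≤ nu {n | k.factorial ≤ n} := by
  rw [nu_apply]
  refine le_trans (le_of_eq ?_) (ENNReal.le_tsum k)
  rw [indicator_of_mem, mul_one]
  exact Nat.factorial_le (by omega)

/-- the mixture of `δ₁` and `nu` -/
noncomputable def mix (p : ℝ≥0∞) : Measure ℕ := p • Measure.dirac 1 + (1 - p) • nu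

lemma isProb_mix {p : ℝ≥0∞} (hp : p ≤ 1) : IsProbabilityMeasure (mix p) := by
  constructor
  simp only [mix, Measure.add_apply, Measure.smul_apply, smul_eq_mul, measure_univ, mul_one]
  exact add_tsub_cancel_of_le hp

lemma mix_large {p : ℝ≥0∞} (hp : p < 1) : ∃ c : ℝ, 0 < c ∧
    ∀ k : ℕ, ENNReal.ofReal (c * (1 / 2) ^ k) ≤ mix p {n | k.factorial ≤ n} := by
  have hp0 : 1 - p ≠ 0 := (tsub_pos_of_lt hp).ne'
  have hpt : 1 - p ≠ ∞ := ne_top_of_le_ne_top ENNReal.one_ne_top tsub_le_self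
  refine ⟨(1 - p).toReal / 2, by have := ENNReal.toReal_pos hp0 hpt; positivity, fun k => ?_⟩
  calc ENNReal.ofReal ((1 - p).toReal / 2 * (1 / 2) ^ k)
      = (1 - p) * (2 : ℝ≥0∞)⁻¹ ^ (k + 1) := by
        have h1 : (1 - p).toReal / 2 * (1 / 2) ^ k = (1 - p).toReal * (2 : ℝ)⁻¹ ^ (k + 1) := by
          rw [pow_succ, one_div]
          ring
        rw [h1, ENNReal.ofReal_mul ENNReal.toReal_nonneg, ENNReal.ofReal_toReal hpt,
          ENNReal.ofReal_pow (by norm_num), ENNReal.ofReal_inv_of_pos (by norm_num)]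
        simp
    _ ≤ (1 - p) * nu {n | k.factorial ≤ n} := by
        gcongr
        exact nu_large k
    _ ≤ mix p {n | k.factorial ≤ n} := by
        simp only [mix, Measure.add_apply, Measure.smul_apply, smul_eq_mul]
        exact le_add_self

/-! ### Existence of the marked process -/

lemma indep_lift {Ω Ω' ι : Type} {β : ι → Type} [MeasurableSpace Ω] [MeasurableSpace Ω']
    [∀ i, MeasurableSpace (β i)] {P : Measure Ω} {P' : Measure Ω'} {X : (i : ι) → Ω → β i}
    {f : Ω' → Ω} (hf : MeasurePreserving f P' P) (hX : ∀ i, Measurable (X i))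
    (h : iIndepFun X P) : iIndepFun (fun i ω => X i (f ω)) P' := by
  rw [iIndepFun_iff_measure_inter_preimage_eq_mul] at h ⊢
  intro S sets hs
  have h1 := h S hs
  have h2 : ∀ i ∈ S, P' ((fun ω => X i (f ω)) ⁻¹' sets i) = P (X i ⁻¹' sets i) := by
    intro i hi
    exact hf.measure_preimage ((hX i) (hs i hi)).nullMeasurableSet
  rw [Finset.prod_congr rfl h2, ← h1]
  have h3 : (⋂ i ∈ S, (fun ω => X i (f ω)) ⁻¹' sets i) = f ⁻¹' (⋂ i ∈ S, X i ⁻¹' sets i) := by
    ext ω
    simp
  rw [h3]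
  exact hf.measure_preimage (Finset.measurableSet_biInter _ fun i hi =>
    (hX i) (hs i hi)).nullMeasurableSet

lemma poisson_lift {d : ℕ} {Ω Ω' : Type} [MeasurableSpace Ω] [MeasurableSpace Ω'] {P : Measure Ω}
    {P' : Measure Ω'} {lam : ℝ≥0} {x : ℕ → Ω → E d} {f : Ω' → Ω} (hf : MeasurePreserving f P' P)
    (hx : IsPoissonProcess P lam x) : IsPoissonProcess P' lam (fun i ω => x i (f ω)) where
  measurable i := (hx.measurable i).comp hf.measurable
  law A hA hAf := by
    have h1 : count (fun i ω => x i (f ω)) A = count x A ∘ f := rfl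
    rw [h1, ← Measure.map_map (measurable_count hx.measurable hA) hf.measurable, hf.map_eq]
    exact hx.law A hA hAf
  indep ι _ A hA hAf hd :=
    indep_lift (X := fun i => count x (A i)) hf
      (fun i => measurable_count hx.measurable (hA i)) (hx.indep ι A hA hAf hd)

/-- Marked Poisson processes exist. -/
theorem exists_marked {d : ℕ} (hd : 1 ≤ d) (μ : Measure ℕ) [IsProbabilityMeasure μ] :
    ∃ (Ω : Type) (_ : MeasurableSpace Ω) (P : Measure Ω) (_ : IsProbabilityMeasure P)
      (x : ℕ → Ω → E d) (D : ℕ → Ω → ℕ), MarkedPoisson P μ x D := by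
  obtain ⟨Ω₁, m₁, P₁, hP₁, x, hx⟩ := Pool.Agent.Helper56_LP.exists_ppp d hd 1 one_pos
  set Q : Measure (ℕ → ℕ) := Measure.infinitePi (fun _ => μ) with hQ
  have h1 : MeasurePreserving (Prod.fst : Ω₁ × (ℕ → ℕ) → Ω₁) (P₁.prod Q) P₁ :=
    measurePreserving_fst
  have h2 : MeasurePreserving (Prod.snd : Ω₁ × (ℕ → ℕ) → _) (P₁.prod Q) Q :=
    measurePreserving_snd
  have h3 : ∀ i : ℕ, MeasurePreserving (fun ω : ℕ → ℕ => ω i) Q μ := fun i =>
    measurePreserving_eval_infinitePi (fun _ => μ) i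
  refine ⟨Ω₁ × (ℕ → ℕ), inferInstance, P₁.prod Q, inferInstance, fun i ω => x i ω.1,
    fun i ω => ω.2 i, ⟨poisson_lift h1 hx, ?_, ?_, ?_, ?_⟩⟩
  · intro i
    exact (measurable_pi_apply i).comp measurable_snd
  · intro i
    exact ((h3 i).comp h2).map_eq
  · have h4 : iIndepFun (fun (i : ℕ) (ω : ℕ → ℕ) => ω i) Q :=
      iIndepFun_infinitePi (P := fun _ : ℕ => μ) (X := fun _ y => y) (fun _ => measurable_id)
    exact indep_lift h2 (fun i => measurable_pi_apply i) h4
  · have h5 : Measurable (fun (ω : Ω₁) i => x i ω) := measurable_pi_iff.mpr hx.measurable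
    have h6 : Measurable (fun (ω : ℕ → ℕ) (i : ℕ) => ω i) := measurable_id
    exact indepFun_prod (μ := P₁) (ν := Q) h5 h6

/-! ### The main theorem -/

/-- For the degree law `p δ₁ + (1 - p) nu` with `p < 1`, almost surely, stable multi-matchings
exist, and every stable multi-matching uses all stubs and has an infinite component. -/
theorem ae_percolates {d : ℕ} (hd : 1 ≤ d) {p : ℝ≥0∞} (hp : p < 1) {Ω : Type} [MeasurableSpace Ω]
    {P : Measure Ω} [IsProbabilityMeasure P] {x : ℕ → Ω → E d} {D : ℕ → Ω → ℕ}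
    (hx : MarkedPoisson P (mix p) x D) :
    ∀ᵐ ω ∂P, (∃ G, IsStable (fun i => x i ω) (fun i => D i ω) G) ∧
      ∀ G, IsStable (fun i => x i ω) (fun i => D i ω) G →
        (∀ i, (G.neighborSet i).encard = (D i ω : ℕ∞)) ∧ Percolates G := by
  have := isProb_mix hp.le
  obtain ⟨c, hc, hc'⟩ := mix_large hp
  filter_upwards [ae_good hd hc hc' hx] with ω hω
  obtain ⟨K, hK⟩ := hω
  exact ⟨exists_stable (locallyFinite_of_good hK),
    fun G hG => ⟨degree_eq_of_good hG hK, percolates_of_good hG hK⟩⟩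

end Run7.h550.SMM
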