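import Pool.Agent.Run7.h550.SMM.Det
import Pool.Agent.Helper56_LP.Marked

/-!
# Stable multi-matchings: the probabilistic part
-/

set_option autoImplicit false

namespace Run7.h550.SMM

open MeasureTheory ProbabilityTheory Set Filter Topology
open scoped ENNReal NNReal
open Pool.Agent.Helper712_LP (E IsPoissonProcess count)

/-- mean of the Poisson law -/
theorem poisson_mean (ν : ℝ≥0) : ∫⁻ n, (n : ℝ≥0∞) ∂(poissonMeasure ν) = ν := by
  rw [lintegral_countable', tsum_eq_zero_add' ENNReal.summable]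
  simp only [Nat.cast_zero, zero_mul, zero_add]
  have h1 : ∀ n : ℕ, ((n + 1 : ℕ) : ℝ≥0∞) * (poissonMeasure ν) {n + 1} =
      ν * (poissonMeasure ν) {n} := by
    intro n
    rw [poissonMeasure_singleton, poissonMeasure_singleton, ← ENNReal.ofReal_natCast,
      ← ENNReal.ofReal_mul (by positivity), ← ENNReal.ofReal_coe_nnreal (p := ν),
      ← ENNReal.ofReal_mul (by positivity)]
    congr 1
    rw [Nat.factorial_succ, pow_succ]
    have : ((n.factorial : ℕ) : ℝ) ≠ 0 := by positivity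
    have : ((n + 1 : ℕ) : ℝ) ≠ 0 := by positivity
    push_cast at *
    field_simp
  simp_rw [h1]
  rw [ENNReal.tsum_mul_left]
  have h2 := lintegral_countable' (μ := poissonMeasure ν) (fun _ : ℕ => (1 : ℝ≥0∞))
  simp only [one_mul, lintegral_const, measure_univ] at h2
  rw [← h2, mul_one]

variable {d : ℕ} {Ω : Type} [MeasurableSpace Ω] {P : Measure Ω} [IsProbabilityMeasure P]

omit [IsProbabilityMeasure P] in
lemma measurable_count {x : ℕ → Ω → E d} (hx : ∀ i, Measurable (x i)) {A : Set (E d)}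
    (hA : MeasurableSet A) : Measurable (count x A) := by
  unfold count
  refine Measurable.tsum fun i => ?_
  exact (measurable_const.indicator hA).comp (hx i)

omit [IsProbabilityMeasure P] in
lemma lintegral_count {x : ℕ → Ω → E d} (hx : IsPoissonProcess P 1 x) {A : Set (E d)}
    (hA : MeasurableSet A) (hf : volume A ≠ ∞) : ∫⁻ ω, count x A ω ∂P = volume A := by
  have h1 : ∫⁻ ω, count x A ω ∂P = ∫⁻ t, t ∂(P.map (count x A)) := by
    rw [lintegral_map (f := fun t : ℝ≥0∞ => t) measurable_id (measurable_count hx.measurable hA)]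
  rw [h1, hx.law A hA hf, lintegral_map (f := fun t : ℝ≥0∞ => t) measurable_id
    (Measurable.of_discrete)]
  rw [poisson_mean]
  simp only [one_mul]
  exact ENNReal.coe_toNNReal hf

omit [IsProbabilityMeasure P] in
/-- too many points in a ball -/
lemma prob_many {x : ℕ → Ω → E d} (hx : IsPoissonProcess P 1 x) (k : ℕ) :
    P {ω | (k.factorial : ℝ≥0∞) < count x (Metric.closedBall 0 (4 ^ (k + 3))) ω} ≤
      ENNReal.ofReal ((4 ^ (k + 3)) ^ d) * volume (Metric.ball (0 : E d) 1) / k.factorial := by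
  have hv : volume (Metric.closedBall (0 : E d) (4 ^ (k + 3))) =
      ENNReal.ofReal ((4 ^ (k + 3)) ^ d) * volume (Metric.ball (0 : E d) 1) := by
    rw [Measure.addHaar_closedBall _ _ (by positivity)]
    simp
  have hf : volume (Metric.closedBall (0 : E d) (4 ^ (k + 3))) ≠ ∞ :=
    measure_closedBall_lt_top.ne
  calc P {ω | (k.factorial : ℝ≥0∞) < count x (Metric.closedBall 0 (4 ^ (k + 3))) ω}
      ≤ P {ω | (k.factorial : ℝ≥0∞) ≤ count x (Metric.closedBall 0 (4 ^ (k + 3))) ω} :=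
        measure_mono (fun ω hω => by
          simp only [Set.mem_ofPred_eq] at hω ⊢
          exact hω.le)
    _ ≤ (∫⁻ ω, count x (Metric.closedBall 0 (4 ^ (k + 3))) ω ∂P) / k.factorial :=
        meas_ge_le_lintegral_div
          (measurable_count hx.measurable measurableSet_closedBall).aemeasurable
          (by exact_mod_cast (Nat.factorial_pos k).ne') (ENNReal.natCast_ne_top _)
    _ = _ := by rw [lintegral_count hx measurableSet_closedBall hf, hv]

/-- no point of the annulus has many stubs -/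
lemma prob_none {μ : Measure ℕ} [IsProbabilityMeasure μ] {x : ℕ → Ω → E d} {D : ℕ → Ω → ℕ}
    (hx : MarkedPoisson P μ x D) {A : Set (E d)} (hA : MeasurableSet A) (hf : volume A ≠ ∞)
    (m : ℕ) :
    P {ω | ∀ i, ¬ (x i ω ∈ A ∧ m ≤ D i ω)} =
      ENNReal.ofReal (Real.exp (-(volume A * μ {n | m ≤ n}).toReal)) := by
  classical
  set φ : E d × ℕ → ℝ≥0∞ := (A ×ˢ {n | m ≤ n}).indicator (fun _ => 1) with hφ
  have hS : MeasurableSet (A ×ˢ {n : ℕ | m ≤ n}) := hA.prod (MeasurableSet.of_discrete)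
  have hφm : Measurable φ := measurable_const.indicator hS
  have hφ1 : ∀ q, φ q ≤ 1 := by
    intro q
    rw [hφ]
    by_cases h : q ∈ A ×ˢ {n : ℕ | m ≤ n}
    · rw [indicator_of_mem h]
    · rw [indicator_of_notMem h]
      exact zero_le
  have hint : ∫⁻ z, ∫⁻ n, φ (z, n) ∂μ = volume A * μ {n | m ≤ n} := by
    have h1 : ∫⁻ z, ∫⁻ n, φ (z, n) ∂μ = ∫⁻ q, φ q ∂((volume : Measure (E d)).prod μ) :=
      (lintegral_prod _ hφm.aemeasurable).symm
    rw [h1, hφ, lintegral_indicator hS]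
    simp [Measure.prod_prod]
  have hfin : ∫⁻ z, ∫⁻ n, φ (z, n) ∂μ ≠ ∞ := by
    rw [hint]
    exact ENNReal.mul_ne_top hf (measure_ne_top _ _)
  have h := Pool.Agent.Helper56_LP.marked d Ω P 1 x hx.points ℕ D μ hx.measurable hx.law hx.indep
    hx.indep_points φ hφm hφ1 hfin
  rw [hint] at h
  have h2 : ∀ ω, (⨅ n : ℕ, ∏ i ∈ Finset.range n, (1 - φ (x i ω, D i ω))) =
      {ω | ∀ i, ¬ (x i ω ∈ A ∧ m ≤ D i ω)}.indicator (fun _ => (1 : ℝ≥0∞)) ω := by
    intro ω
    have h3 : ∀ i, 1 - φ (x i ω, D i ω) = if x i ω ∈ A ∧ m ≤ D i ω then 0 else 1 := by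
      intro i
      rw [hφ]
      by_cases h : x i ω ∈ A ∧ m ≤ D i ω
      · rw [indicator_of_mem (by simpa [mem_prod] using h), if_pos h]
        simp
      · rw [indicator_of_notMem (by simpa [mem_prod] using h), if_neg h]
        simp
    simp_rw [h3]
    by_cases hω : ∀ i, ¬ (x i ω ∈ A ∧ m ≤ D i ω)
    · rw [indicator_of_mem (show ω ∈ {ω | ∀ i, ¬ (x i ω ∈ A ∧ m ≤ D i ω)} from hω)]
      refine le_antisymm ((iInf_le _ 0).trans (by simp)) (le_iInf fun n => ?_)
      rw [Finset.prod_eq_one]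
      intro i _
      rw [if_neg (hω i)]
    · rw [indicator_of_notMem (show ω ∉ {ω | ∀ i, ¬ (x i ω ∈ A ∧ m ≤ D i ω)} from hω)]
      push Not at hω
      obtain ⟨i, hi⟩ := hω
      refine le_antisymm ((iInf_le _ (i + 1)).trans ?_) zero_le
      rw [Finset.prod_eq_zero (Finset.mem_range.2 (Nat.lt_succ_self i))]
      rw [if_pos hi]
  simp_rw [h2] at h
  have hms : MeasurableSet {ω | ∀ i, ¬ (x i ω ∈ A ∧ m ≤ D i ω)} := by
    have : {ω | ∀ i, ¬ (x i ω ∈ A ∧ m ≤ D i ω)} =
        ⋂ i, ((x i ⁻¹' A) ∩ (D i ⁻¹' {n | m ≤ n}))ᶜ := by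
      ext ω
      simp
    rw [this]
    exact MeasurableSet.iInter fun i => (((hx.points.measurable i) hA).inter
      ((hx.measurable i) (MeasurableSet.of_discrete))).compl
  rw [lintegral_indicator hms] at h
  simpa using h

/-- the annulus with radii `4 ^ k` and `4 ^ (k + 1)` -/
def annulus (d k : ℕ) : Set (E d) := Metric.ball 0 (4 ^ (k + 1)) \ Metric.ball 0 (4 ^ k)

lemma measurableSet_annulus (d k : ℕ) : MeasurableSet (annulus d k) :=
  measurableSet_ball.diff measurableSet_ball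

lemma mem_annulus {k : ℕ} {z : E d} : z ∈ annulus d k ↔ 4 ^ k ≤ ‖z‖ ∧ ‖z‖ < 4 ^ (k + 1) := by
  simp [annulus, and_comm]

lemma volume_annulus_ne_top (d k : ℕ) : volume (annulus d k) ≠ ∞ :=
  ne_top_of_le_ne_top measure_ball_lt_top.ne (measure_mono sdiff_subset)

/-- the annulus is large -/
lemma volume_annulus (hd : 1 ≤ d) (k : ℕ) :
    ENNReal.ofReal (4 ^ k) * volume (Metric.ball (0 : E d) 1) ≤ volume (annulus d k) := by
  have hb : ∀ r : ℝ, 0 ≤ r → volume (Metric.ball (0 : E d) r) =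
      ENNReal.ofReal (r ^ d) * volume (Metric.ball (0 : E d) 1) := by
    intro r hr
    have : Nonempty (Fin d) := ⟨⟨0, hd⟩⟩
    rw [Measure.addHaar_ball _ _ hr]
    simp
  have hsub : Metric.ball (0 : E d) (4 ^ k) ⊆ Metric.ball 0 (4 ^ (k + 1)) :=
    Metric.ball_subset_ball (pow_le_pow_right₀ (by norm_num) (Nat.le_succ k))
  rw [annulus, measure_sdiff hsub measurableSet_ball.nullMeasurableSet measure_ball_lt_top.ne,
    hb (4 ^ (k + 1)) (by positivity), hb (4 ^ k) (by positivity), ← ENNReal.sub_mul (fun _ _ =>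
      measure_ball_lt_top.ne)]
  gcongr
  rw [← ENNReal.ofReal_sub _ (by positivity)]
  refine ENNReal.ofReal_le_ofReal ?_
  have e1 : ((4 : ℝ) ^ (k + 1)) ^ d = 4 ^ d * (4 ^ k) ^ d := by
    rw [pow_succ, mul_pow]
    ring
  have e2 : (4 : ℝ) ≤ 4 ^ d := by
    calc (4 : ℝ) = 4 ^ 1 := by norm_num
      _ ≤ 4 ^ d := pow_le_pow_right₀ (by norm_num) hd
  have e3 : (4 : ℝ) ^ k ≤ (4 ^ k) ^ d := by
    calc (4 : ℝ) ^ k = (4 ^ k) ^ 1 := by norm_num
      _ ≤ (4 ^ k) ^ d := pow_le_pow_right₀ (one_le_pow₀ (by norm_num)) hd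
  have e4 : (0 : ℝ) < 4 ^ k := by positivity
  rw [e1]
  nlinarith

/-- With heavy-tailed degrees the configuration is good, almost surely. -/
theorem ae_good (hd : 1 ≤ d) {μ : Measure ℕ} [IsProbabilityMeasure μ] {c : ℝ} (hc : 0 < c)
    (hμ : ∀ k : ℕ, ENNReal.ofReal (c * (1 / 2) ^ k) ≤ μ {n | k.factorial ≤ n})
    {x : ℕ → Ω → E d} {D : ℕ → Ω → ℕ} (hx : MarkedPoisson P μ x D) :
    ∀ᵐ ω ∂P, ∃ K, Good (fun i => x i ω) (fun i => D i ω) K := by
  have : Nonempty (Fin d) := ⟨⟨0, hd⟩⟩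
  set V := volume (Metric.ball (0 : E d) 1) with hV
  have hVt : V ≠ ∞ := measure_ball_lt_top.ne
  have hV0 : V ≠ 0 := (Metric.measure_ball_pos _ _ one_pos).ne'
  have hvpos : 0 < V.toReal := ENNReal.toReal_pos hV0 hVt
  set B1 : ℕ → Set Ω := fun k =>
    {ω | (k.factorial : ℝ≥0∞) < count x (Metric.closedBall 0 (4 ^ (k + 3))) ω} with hB1
  set B2 : ℕ → Set Ω := fun k => {ω | ∀ i, ¬ (x i ω ∈ annulus d k ∧ k.factorial ≤ D i ω)}
    with hB2
  have hs1 : ∑' k, P (B1 k) ≠ ∞ := by
    have h1 : ∀ k, P (B1 k) ≤ ENNReal.ofReal (4 ^ (3 * d) * ((4 ^ d) ^ k / k.factorial)) * V := by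
      intro k
      refine (prob_many hx.points k).trans ?_
      rw [← hV, mul_comm, mul_div_assoc, mul_comm]
      gcongr
      rw [← ENNReal.ofReal_natCast, ← ENNReal.ofReal_div_of_pos (by positivity)]
      refine ENNReal.ofReal_le_ofReal (le_of_eq ?_)
      have : ((4 : ℝ) ^ (k + 3)) ^ d = 4 ^ (3 * d) * (4 ^ d) ^ k := by
        rw [← pow_mul, ← pow_mul, ← pow_add]
        congr 1
        ring
      rw [this]
      ring
    refine ne_top_of_le_ne_top ?_ (ENNReal.tsum_le_tsum h1)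
    rw [ENNReal.tsum_mul_right]
    refine ENNReal.mul_ne_top ?_ hVt
    exact ((Real.summable_pow_div_factorial _).mul_left _).tsum_ofReal_ne_top
  have hs2 : ∑' k, P (B2 k) ≠ ∞ := by
    have h1 : ∀ k, P (B2 k) ≤ ENNReal.ofReal ((c * V.toReal)⁻¹ * (1 / 2) ^ k) := by
      intro k
      rw [hB2]
      simp only
      rw [prob_none hx (measurableSet_annulus d k) (volume_annulus_ne_top d k)]
      refine ENNReal.ofReal_le_ofReal ?_
      have h2 : c * V.toReal * 2 ^ k ≤
          (volume (annulus d k) * μ {n | k.factorial ≤ n}).toReal := by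
        have h3 : ENNReal.ofReal (c * V.toReal * 2 ^ k) ≤
            volume (annulus d k) * μ {n | k.factorial ≤ n} := by
          refine le_trans (le_of_eq ?_) (mul_le_mul' (volume_annulus hd k) (hμ k))
          rw [← hV, ← ENNReal.ofReal_toReal hVt, ← ENNReal.ofReal_mul (by positivity),
            ← ENNReal.ofReal_mul (by positivity)]
          congr 1
          rw [ENNReal.toReal_ofReal (by positivity)]
          have : (4 : ℝ) ^ k = 2 ^ k * 2 ^ k := by
            rw [← mul_pow]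
            norm_num
          rw [this]
          have h4 : (2 : ℝ) ^ k * (1 / 2) ^ k = 1 := by
            rw [← mul_pow]
            norm_num
          calc c * V.toReal * 2 ^ k = c * V.toReal * 2 ^ k * (2 ^ k * (1 / 2) ^ k) := by
                rw [h4, mul_one]
            _ = _ := by ring
        have h5 := ENNReal.toReal_mono (ENNReal.mul_ne_top (volume_annulus_ne_top d k)
          (measure_ne_top _ _)) h3
        rwa [ENNReal.toReal_ofReal (by positivity)] at h5
      set t := (volume (annulus d k) * μ {n | k.factorial ≤ n}).toReal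
      have h0 : 0 < c * V.toReal * 2 ^ k := by positivity
      have ht : 0 < t := lt_of_lt_of_le h0 h2
      have h6 : t ≤ Real.exp t := by linarith [Real.add_one_le_exp t]
      calc Real.exp (-t) = (Real.exp t)⁻¹ := Real.exp_neg t
        _ ≤ (c * V.toReal * 2 ^ k)⁻¹ := inv_anti₀ h0 (h2.trans h6)
        _ = (c * V.toReal)⁻¹ * (1 / 2) ^ k := by
          rw [mul_inv, one_div, inv_pow]
    refine ne_top_of_le_ne_top ?_ (ENNReal.tsum_le_tsum h1)
    exact ((summable_geometric_of_lt_one (by norm_num) (by norm_num)).mul_left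
      _).tsum_ofReal_ne_top
  filter_upwards [ae_eventually_notMem hs1, ae_eventually_notMem hs2] with ω h1 h2
  obtain ⟨K, hK⟩ := eventually_atTop.1 (h1.and h2)
  refine ⟨K, fun k hk => ?_⟩
  obtain ⟨a, b⟩ := hK k hk
  constructor
  · rw [hB1] at a
    simp only [Set.mem_ofPred_eq, not_lt] at a
    have h3 : count x (Metric.closedBall 0 (4 ^ (k + 3))) ω =
        (({i | ‖x i ω‖ ≤ 4 ^ (k + 3)} : Set ℕ).encard : ℝ≥0∞) := by
      rw [← ENNReal.tsum_set_one, tsum_subtype _ (fun _ : ℕ => (1 : ℝ≥0∞))]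
      unfold count
      refine tsum_congr fun i => ?_
      by_cases h : ‖x i ω‖ ≤ 4 ^ (k + 3)
      · rw [indicator_of_mem (by simpa using h), indicator_of_mem (by simpa using h)]
      · rw [indicator_of_notMem (by simpa using h), indicator_of_notMem (by simpa using h)]
    rw [h3] at a
    exact_mod_cast a
  · rw [hB2] at b
    simp only [Set.mem_ofPred_eq] at b
    push Not at b
    obtain ⟨i, hi, hi'⟩ := b
    rw [mem_annulus] at hi
    exact ⟨i, hi.1, hi.2, hi'⟩

end Run7.h550.SMM
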